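import Pool.Agent.Helper22.OR.O6

/-!
# A finitely generated residually finite group with infinite residually finite outer automorphism
group which is not inner automorphism separable
-/

set_option autoImplicit false

namespace Pool.Agent.Results.MP_48d09b_al.OutRFNotIAS

/-- Residually finite: every nontrivial element survives in a finite quotient (a homomorphism to a
finite group). -/
def ResiduallyFinite (G : Type) [Group G] : Prop :=
  ∀ g : G, g ≠ 1 → ∃ (H : Type) (_ : Group H) (_ : Finite H) (φ : G →* H), φ g ≠ 1

/-- The group of inner automorphisms, as a subgroup of `Aut(G)`. -/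
def Inn (G : Type) [Group G] : Subgroup (MulAut G) := (MulAut.conj : G →* MulAut G).range

instance (G : Type) [Group G] : (Inn G).Normal := Pool.Agent.Helper22.OR.InnN G

/-- `Out(G) = Aut(G) / Inn(G)`. -/
abbrev Out (G : Type) [Group G] : Type := MulAut G ⧸ Inn G

/-- The automorphism of `G / K` induced by an automorphism of `G`, for `K` characteristic. -/
def kappa {G : Type} [Group G] (K : Subgroup G) [hK : K.Characteristic] (φ : MulAut G) :
    MulAut (G ⧸ K) :=
  QuotientGroup.congr K K φ (Subgroup.characteristic_iff_map_eq.1 hK φ)

/-- Inner automorphism separable: every non-inner automorphism induces a non-inner automorphism on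
the quotient by some characteristic subgroup of finite index. -/
def IAS (G : Type) [Group G] : Prop :=
  ∀ φ : MulAut G, φ ∉ Inn G → ∃ (K : Subgroup G) (_ : K.Characteristic),
    K.FiniteIndex ∧ kappa K φ ∉ Inn (G ⧸ K)

instance : Pool.Agent.Helper22.OR.NC (alternatingGroup (Fin 5)) :=
  ⟨⟨⟨Equiv.swap 0 1 * Equiv.swap 1 2, Equiv.Perm.mem_alternatingGroup.2 (by decide)⟩,
    ⟨Equiv.swap 0 1 * Equiv.swap 1 3, Equiv.Perm.mem_alternatingGroup.2 (by decide)⟩,
    by
      intro h
      have h2 := congrArg Subtype.val h
      revert h2
      decide⟩⟩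

/-- There is a finitely generated residually finite group `G` such that `Out(G)` is infinite and
residually finite, but `G` is not inner automorphism separable. -/
theorem result : ∃ (G : Type) (_ : Group G), Group.FG G ∧ ResiduallyFinite G ∧
    Infinite (Out G) ∧ ResiduallyFinite (Out G) ∧ ¬ IAS G :=
  haveI : IsSimpleGroup (alternatingGroup (Fin 5)) := alternatingGroup.isSimpleGroup (by simp)
  ⟨Pool.Agent.Helper22.OR.GT (alternatingGroup (Fin 5)), inferInstance,
    Pool.Agent.Helper22.OR.fg, Pool.Agent.Helper22.OR.rf, Pool.Agent.Helper22.OR.inf_out,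
    Pool.Agent.Helper22.OR.rf_out, Pool.Agent.Helper22.OR.not_ias⟩

end Pool.Agent.Results.MP_48d09b_al.OutRFNotIAS
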